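import Pool.Agent.H41.Tc2

set_option autoImplicit false

open Pool.Agent.H41.Tc

/-- The integral operator `T` exists as a bounded operator on `L²([0,1])` and is not of trace
class: `∑ ‖T bᵢ‖` diverges for every orthonormal basis `(bᵢ)`, and in particular the singular
values (the numbers `σᵢ ≥ 0` with `T* T bᵢ = σᵢ² bᵢ` along an orthonormal eigenbasis of `T* T`)
are not summable. -/
theorem Pool.Agent.Results.MP_5a0ad8_an.No.result :
    (∃ T : Op H, IsT T) ∧ ∀ T : Op H, IsT T → BasisDiverge T ∧ SingDiverge T := by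
  refine ⟨exists_T, fun T hT => ⟨fun ι b => not_summable T hT b, fun ι b σ h0 h hs => ?_⟩⟩
  apply not_summable T hT b
  refine hs.congr fun i => ?_
  have h1 : inner ℂ (b i) ((ContinuousLinearMap.adjoint T) (T (b i))) = ((‖T (b i)‖ : ℂ)) ^ 2 := by
    rw [ContinuousLinearMap.adjoint_inner_right, inner_self_eq_norm_sq_to_K]; rfl
  rw [h i, inner_smul_right, inner_self_eq_norm_sq_to_K, b.orthonormal.1 i] at h1
  have h2 : σ i ^ 2 = ‖T (b i)‖ ^ 2 := by
    have h3 : ((σ i : ℂ)) ^ 2 = ((‖T (b i)‖ : ℂ)) ^ 2 := by simpa using h1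
    exact_mod_cast h3
  exact (pow_left_inj₀ (h0 i) (norm_nonneg _) two_ne_zero).1 h2
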